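import Pool.Agent.K3h88.VR.Asm
import Pool.Agent.K3h18.VR.TAIL
import Pool.Agent.K3h37.VR.FAM
import Pool.Agent.K3h58.VR.Tri
import Pool.Agent.K3h78.VR.Alt
import Pool.Agent.K3h66.VR.RAND
import Pool.Agent.K3h49.VR.Num1
import Pool.Agent.K3h52.VR.GOOD
import Pool.Agent.K3h13.VR.Mono
import Pool.Agent.K3h4.VR.Sub
import Pool.Agent.K3h68.VR.Hom
import Pool.Agent.K3h59.VR.Rank
import Pool.Agent.K3h67.VR.Maps
import Pool.Agent.K3h91.VR.COL
import Pool.Agent.K3h57.VR.Num2
import Pool.Agent.K3h99.VR.Pig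
import Pool.Agent.K3h19.VR.Ampc
import Pool.Agent.K3h33.VR.Half
import Pool.Agent.K3h13.VR.Doub

/-!
# Multicolour Ramsey numbers for subspaces of `F_2^n`: lower bounds and unbounded differences

Let `R r d` be the least `n` such that every colouring of the nonzero vectors of `F_2^n` with `r`
colours has a monochromatic subspace of dimension `2` in one of the first `r - 1` colours or a
monochromatic subspace of dimension `d` in the last colour.

1. `R r d ≥ (max (2, (r + 3) / 4) - o(1)) d` as `d → ∞`, for every `r ≥ 2`. In particular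
   `R 2 d ≥ (2 - o(1)) d`, and the slope of the lower bound grows linearly with the number of colours.
   (Before, only `(3/2 - o(1)) d` was known, for any number of colours.)
2. Let `s ≥ 2` and let `R s d` be bounded by a polynomial `C d ^ a` (this is known, with `a = 7`). Then
   there are `j` with `s < j ≤ 40 * 2 ^ a * (s - 1) + 1` and `c > 0` such that
   `R j d - R (j - 1) d ≥ c R (j - 1) d ≥ c d` for infinitely many `d`. So for infinitely many `j` the
   differences of the problem are unbounded, and even `limsup R j d / R (j - 1) d > 1`.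
3. If `R s d ≤ C d` for infinitely many `d`, then `j` can be found in the range `s < j ≤ r` for every `r`
   with `max (2, (r + 3) / 4) > C`, with differences which are at least `c d` for infinitely many `d`.

Ideas. For `R 2 d`: a random set of density `2 ^ (- n / 2)` from which a maximal family of disjoint
triangles is removed. For many colours: pull the sum-free sets of `F_2^m`, `m ≈ d`, back under random
linear maps `F_2^n → F_2^m`; a subspace of dimension `d` which avoids all of them would have an image of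
dimension less than `d / 2` under all the maps. The same construction, applied to `s`-colourings, gives
`R (k (s - 1) + 1) d ≥ (k / 5) R s (d / 2)`; the polynomial bound implies that
`R s d ≤ 2 ^ (a + 1) R s (d / 2)` for infinitely many `d`.
-/

set_option autoImplicit false

namespace Pool.Agent.Results.MP_bc06f7_co.LinearLowerBounds

open Filter

/-- Every colouring `c` of the (nonzero) vectors of `F_2^n` with the `r` colours `0, ..., r - 1` has a
subspace `V` of dimension `2` the nonzero vectors of which all have the same colour `i < r - 1`, or a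
subspace `V` of dimension `d` the nonzero vectors of which all have the last colour `r - 1`. -/
def HasRamsey (r n d : ℕ) : Prop :=
  ∀ c : (Fin n → ZMod 2) → Fin r,
    (∃ i : Fin r, (i : ℕ) + 1 < r ∧ ∃ V : Submodule (ZMod 2) (Fin n → ZMod 2),
      Module.finrank (ZMod 2) V = 2 ∧ ∀ v ∈ V, v ≠ 0 → c v = i) ∨
    (∃ i : Fin r, (i : ℕ) + 1 = r ∧ ∃ V : Submodule (ZMod 2) (Fin n → ZMod 2),
      Module.finrank (ZMod 2) V = d ∧ ∀ v ∈ V, v ≠ 0 → c v = i)

theorem result :
    -- 1. lower bounds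
    (∀ (r : ℕ) (ε : ℝ), 2 ≤ r → 0 < ε → ∃ D : ℕ, ∀ d n : ℕ, D ≤ d → HasRamsey r n d →
      (max 2 (((r : ℝ) + 3) / 4) - ε) * d ≤ n) ∧
    -- the Ramsey numbers
    ∀ R : ℕ → ℕ → ℕ, (∀ r d : ℕ, 2 ≤ r → 1 ≤ d → IsLeast {n : ℕ | HasRamsey r n d} (R r d)) →
      -- 2. unbounded differences, from a polynomial upper bound
      (∀ s a C : ℕ, 2 ≤ s → (∀ᶠ d : ℕ in atTop, R s d ≤ C * d ^ a) →
        ∃ (j : ℕ) (c : ℝ), s < j ∧ j ≤ 40 * 2 ^ a * (s - 1) + 1 ∧ 0 < c ∧
          ∃ᶠ d : ℕ in atTop, c * d ≤ c * R (j - 1) d ∧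
            c * R (j - 1) d ≤ (R j d : ℝ) - R (j - 1) d) ∧
      -- 3. a better range from a linear upper bound
      ∀ (s r : ℕ) (C c : ℝ), 2 ≤ s → s < r → (∃ᶠ d : ℕ in atTop, (R s d : ℝ) ≤ C * d) →
        C + ((r : ℝ) - s) * c < max 2 (((r : ℝ) + 3) / 4) →
        ∃ j : ℕ, s < j ∧ j ≤ r ∧
          ∃ᶠ d : ℕ in atTop, c * d ≤ (R j d : ℝ) - R (j - 1) d := by
  have hsub := K3h4.VR.t_SUB
  have hgood : K3h88.VR.S_GOOD := K3h52.VR.t_GOOD
    (K3h66.VR.t_RAND K3h18.VR.t_TAIL K3h37.VR.t_FAM K3h58.VR.t_TRI K3h78.VR.t_ALT hsub)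
    K3h49.VR.t_NUM1 K3h13.VR.t_MONO
  have hmaps : K3h88.VR.S_MAPS :=
    K3h67.VR.t_MAPS hsub (K3h59.VR.t_RANK hsub K3h68.VR.t_HOM)
  have hlow : ∀ (r : ℕ) (ε : ℝ), 2 ≤ r → 0 < ε → ∃ D : ℕ, ∀ d n : ℕ, D ≤ d → HasRamsey r n d →
      (max 2 (((r : ℝ) + 3) / 4) - ε) * d ≤ n := fun r ε hr hε =>
    K3h88.VR.lowMax hgood K3h13.VR.t_TWO K3h13.VR.t_MONR hmaps K3h91.VR.t_COL K3h57.VR.t_NUM2
      r ε hr hε
  refine ⟨hlow, fun R hR => ⟨fun s a C hs hp => ?_, fun s r C c hs hsr hfr hC => ?_⟩⟩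
  · exact K3h88.VR.gap hgood K3h13.VR.t_TWO K3h13.VR.t_MONR hmaps K3h19.VR.t_AMPC
      K3h33.VR.t_HALF K3h13.VR.t_DOUB R hR s a C hs hp
  · have hr2 : 2 ≤ r := by omega
    obtain ⟨j, h1, h2, h3⟩ := K3h99.VR.t_PIG R s r C c (max 2 (((r : ℝ) + 3) / 4)) hsr hfr
      (fun ε hε => by
        obtain ⟨D, hD⟩ := hlow r ε hr2 hε
        filter_upwards [eventually_ge_atTop (max D 1)] with d hd
        exact hD d (R r d) (le_trans (le_max_left _ _) hd)
          (hR r d hr2 (le_trans (le_max_right _ _) hd)).1) hC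
    exact ⟨j, h1, h2, h3.mono fun d hd => by linarith⟩

end Pool.Agent.Results.MP_bc06f7_co.LinearLowerBounds
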